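import Pool.Agent.PST.StmtsUD

/-! PST, row HSF: an algebra over `F⟦X⟧` with dual families is finite and free. -/

set_option autoImplicit false

open scoped BigOperators TensorProduct PowerSeries

noncomputable section

namespace Pool.Agent.PST.H86

/-- HSF -/
theorem hsf : UC.HsfStmt := by
  intro F H K _ _ _ _ lam x y hd
  have hfin : Module.Finite F⟦X⟧ H := by
    refine ⟨⟨(Set.finite_range x).toFinset, ?_⟩⟩
    rw [Set.Finite.coe_toFinset, eq_top_iff]
    intro a _
    rw [← hd a]
    exact Submodule.sum_mem _ fun k _ => Submodule.smul_mem _ _ (Submodule.subset_span ⟨k, rfl⟩)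
  refine ⟨hfin, ?_⟩
  have htf : Module.IsTorsionFree F⟦X⟧ H := by
    refine Module.IsTorsionFree.of_smul_eq_zero fun r a h => ?_
    by_cases hr : r = 0
    · exact Or.inl hr
    · right
      rw [← hd a]
      refine Finset.sum_eq_zero fun k _ => ?_
      have h1 : r * lam (y k * a) = 0 := by
        rw [← smul_eq_mul, ← map_smul, ← mul_smul_comm, h, mul_zero, map_zero]
      rw [(mul_eq_zero.1 h1).resolve_left hr, zero_smul]
  exact Module.free_of_finite_type_torsion_free'

end Pool.Agent.PST.H86
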